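import Mathlib

-- part MP_1e9e92_co.Lat
section

/-!
A lattice in odd dimension `n < 2 l + 1` which meets every box with `l` levels and has at most
`2 l` points in every box with `l + 1` levels.
-/

namespace Pool.Agent.MP_1e9e92_co

variable {n : ℕ} {l : ℤ}

theorem neg_chain (hn : Odd n) (V : ZMod n → ℤ) (P : ZMod n → Prop)
    (h : ∀ i, P i → P (i - 1) ∧ V (i - 1) = -V i) (i : ZMod n) (hi : P i) : V i = 0 := by
  have key : ∀ k : ℕ, P (i - k) ∧ V (i - k) = (-1) ^ k * V i := fun k => by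
    induction k with
    | zero => simpa using hi
    | succ k ih =>
      rw [Nat.cast_succ, ← sub_sub, (h _ ih.1).2, ih.2]
      exact ⟨(h _ ih.1).1, by ring⟩
  have := (key n).2
  rw [ZMod.natCast_self, sub_zero, hn.neg_one_pow] at this
  omega

theorem diff_cases (hn : Odd n) (hl : 0 ≤ l) (V : ZMod n → ℤ) (hp : ∀ i k, Even (V i - V k))
    (hb : ∀ i, |(l + 1) * V i + l * V (i - 1)| ≤ 2 * l + 1) :
    V = 0 ∨ (∀ i, V i = 1 ∨ V i = -1) ∧ ∃ i, V (i - 1) = V i := by
  have : NeZero n := ⟨hn.pos.ne'⟩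
  obtain ⟨i, hi⟩ := Finite.exists_max fun i => |V i|
  have h1 : |V i| ≤ 1 := by
    by_contra hM
    have := neg_chain hn V (fun k => |V k| = |V i|) (fun k hk => ?_) i rfl
    · rw [this] at hM
      simp at hM
    have e : V (k - 1) = -V k := by
      have a1 := abs_le.1 (hb k)
      have a2 := abs_le.1 (hi (k - 1))
      obtain ⟨c, a3⟩ := hp k (k - 1)
      by_contra hne
      rcases abs_cases (V k) with ⟨b, -⟩ | ⟨b, -⟩
      · have := mul_le_mul_of_nonneg_left (show 2 - V k ≤ V (k - 1) by omega) hl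
        nlinarith
      · have := mul_le_mul_of_nonneg_left (show V (k - 1) ≤ -2 - V k by omega) hl
        nlinarith
    exact ⟨by rw [e, abs_neg, hk], e⟩
  have h2 := fun k => abs_le.1 ((hi k).trans h1)
  by_cases h0 : V 0 = 0
  · refine Or.inl (funext fun k => ?_)
    obtain ⟨c, a⟩ := hp k 0
    have := h2 k
    change V k = 0
    omega
  have h3 : ∀ k, V k = 1 ∨ V k = -1 := fun k => by
    obtain ⟨c, a⟩ := hp k 0
    have := h2 k
    have := h2 0
    omega
  refine Or.inr ⟨h3, by_contra fun h => h0 (neg_chain hn V (fun _ => True) (fun k _ => ⟨trivial, ?_⟩)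
    0 trivial)⟩
  have := h3 k
  have := h3 (k - 1)
  have : V (k - 1) ≠ V k := fun e => h ⟨k, e⟩
  omega

/-- The residue of the point `2 y + t` with respect to the cell `U`. -/
def res (l : ℤ) (y : ZMod n → ℤ) (t : ℤ) (U : ZMod n → ℤ) (i : ZMod n) : ℤ :=
  2 * y i + t - ((l + 1) * U i + l * U (i - 1))

/-- The point `2 y + t` lies in the cell `U`. -/
def State (l : ℤ) (y : ZMod n → ℤ) (t : ℤ) (U : ZMod n → ℤ) : Prop :=
  (∀ i k, Even (U i - U k)) ∧ ∀ i, 0 ≤ res l y t U i ∧ res l y t U i ≤ 2 * l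

theorem State.shift {y U : ZMod n → ℤ} {t : ℤ} (h : State l y t U) (s : ℤ) :
    State l y (t + (2 * l + 1) * s) (fun i => U i + s) ∧
      res l y (t + (2 * l + 1) * s) (fun i => U i + s) = res l y t U := by
  have e : res l y (t + (2 * l + 1) * s) (fun i => U i + s) = res l y t U :=
    funext fun i => by simp only [res]; ring
  exact ⟨⟨fun i k => by simpa using h.1 i k, e ▸ h.2⟩, e⟩

theorem State.even_sub {y U U' : ZMod n → ℤ} {t t' : ℤ} (h : State l y t U)
    (h' : State l y t' U') (i k : ZMod n) : Even ((U' - U) i - (U' - U) k) := by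
  have := (h'.1 i k).sub (h.1 i k)
  rwa [Pi.sub_apply, Pi.sub_apply, sub_sub_sub_comm]

theorem State.unique (hn : Odd n) (hl : 0 ≤ l) {y U U' : ZMod n → ℤ} {t : ℤ} (h : State l y t U)
    (h' : State l y t U') : U' = U := by
  have e : ∀ i, (l + 1) * (U' - U) i + l * (U' - U) (i - 1) = res l y t U i - res l y t U' i :=
    fun i => by simp only [res, Pi.sub_apply]; ring
  rcases diff_cases hn hl (U' - U) (h.even_sub h') (fun i => by
    have := h.2 i
    have := h'.2 i
    rw [e, abs_le]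
    omega) with h0 | ⟨h1, i, h2⟩
  · exact sub_eq_zero.1 h0
  · have a := e i
    have := h.2 i
    have := h'.2 i
    rcases h1 i with h3 | h3 <;> rw [h2, h3] at a <;> omega

theorem State.step (hn : Odd n) (hl : 0 ≤ l) {y U U' : ZMod n → ℤ} {t : ℤ} (h : State l y t U)
    (h' : State l y (t + 1) U') :
    (∀ j, U' j + U' (j - 1) = U j + U (j - 1) ∨
      U' j + U' (j - 1) = U j + U (j - 1) + 2 ∧ res l y t U j = 2 * l) ∧
    (U' = U ∨ ∃ j, U' j + U' (j - 1) = U j + U (j - 1) + 2) := by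
  have e : ∀ i, (l + 1) * (U' - U) i + l * (U' - U) (i - 1) =
      res l y t U i + 1 - res l y (t + 1) U' i :=
    fun i => by simp only [res, Pi.sub_apply]; ring
  rcases diff_cases hn hl (U' - U) (h.even_sub h') (fun i => by
    have := h.2 i
    have := h'.2 i
    rw [e, abs_le]
    omega) with h0 | ⟨h1, i, h2⟩
  · rw [sub_eq_zero.1 h0]
    exact ⟨fun _ => Or.inl rfl, Or.inl rfl⟩
  · have key : ∀ j, U' j + U' (j - 1) = U j + U (j - 1) ∧ (U' - U) (j - 1) ≠ (U' - U) j ∨
        U' j + U' (j - 1) = U j + U (j - 1) + 2 ∧ res l y t U j = 2 * l := fun j => by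
      have a1 := e j
      have := h.2 j
      have := h'.2 j
      rcases h1 j with h3 | h3 <;> rcases h1 (j - 1) with h4 | h4 <;> rw [h3, h4] at a1 ⊢ <;>
        simp only [Pi.sub_apply] at h3 h4 <;> omega
    exact ⟨fun j => (key j).imp_left And.left,
      Or.inr ⟨i, ((key i).resolve_left fun a => a.2 h2).1⟩⟩

theorem cyc [NeZero n] (f : ℕ → ℤ) (hf : f n = f 0) (R : ZMod n → ℤ → ℤ → Prop)
    (h : ∀ k < n, R ((k + 1 : ℕ) : ZMod n) (f (k + 1)) (f k)) (i : ZMod n) :
    R i (f i.val) (f (i - 1).val) := by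
  have h1 := h _ (i - 1).val_lt
  have h2 : (((i - 1).val + 1 : ℕ) : ZMod n) = i := by simp
  rw [h2] at h1
  rcases (Nat.add_one_le_of_lt (i - 1).val_lt).lt_or_eq with h3 | h3
  · rwa [← ZMod.val_natCast_of_lt h3, h2] at h1
  · rw [h3] at h1 h2
    rw [← h2, ZMod.natCast_self, ZMod.val_zero, ← hf, ← ZMod.natCast_self, h2]
    exact h1

/-- The sequence of quotients along the cycle. -/
def quo (l : ℤ) (x : ZMod n → ℤ) (u : ℤ) : ℕ → ℤ
  | 0 => u
  | k + 1 => (x ((k + 1 : ℕ) : ZMod n) - l * quo l x u k) / (l + 1)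

theorem quo_spec (hl : 0 ≤ l) (x : ZMod n → ℤ) (u : ℤ) (k : ℕ) :
    0 ≤ x ((k + 1 : ℕ) : ZMod n) - ((l + 1) * quo l x u (k + 1) + l * quo l x u k) ∧
    x ((k + 1 : ℕ) : ZMod n) - ((l + 1) * quo l x u (k + 1) + l * quo l x u k) ≤ l := by
  have h1 := Int.emod_add_mul_ediv (x ((k + 1 : ℕ) : ZMod n) - l * quo l x u k) (l + 1)
  have h2 := Int.emod_nonneg (x ((k + 1 : ℕ) : ZMod n) - l * quo l x u k) (b := l + 1) (by omega)
  have h3 := Int.emod_lt_of_pos (x ((k + 1 : ℕ) : ZMod n) - l * quo l x u k) (b := l + 1)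
    (by omega)
  rw [quo]
  omega

theorem quo_diff (hl : 0 ≤ l) (x : ZMod n → ℤ) (u : ℤ) (k : ℕ) :
    (quo l x (u + 1) (k + 1) = quo l x u (k + 1) ∨
      quo l x (u + 1) (k + 1) - quo l x u (k + 1) = -(quo l x (u + 1) k - quo l x u k)) ∧
    (quo l x (u + 1) k = quo l x u k ∨ quo l x (u + 1) k - quo l x u k = (-1) ^ k) := by
  have st : ∀ k, (quo l x (u + 1) k = quo l x u k ∨ quo l x (u + 1) k - quo l x u k = (-1) ^ k) →
      (quo l x (u + 1) (k + 1) = quo l x u (k + 1) ∨
      quo l x (u + 1) (k + 1) - quo l x u (k + 1) = -(quo l x (u + 1) k - quo l x u k)) := by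
    intro k h
    have h1 := quo_spec hl x u k
    have h2 := quo_spec hl x (u + 1) k
    generalize quo l x (u + 1) (k + 1) = a, quo l x u (k + 1) = b, quo l x (u + 1) k = c,
      quo l x u k = e at *
    have h3 : c - e = 0 ∨ c - e = 1 ∨ c - e = -1 := by
      rcases neg_one_pow_eq_or ℤ k with h4 | h4 <;> omega
    by_contra hne
    rcases h3 with h3 | h3 | h3 <;> obtain rfl := eq_add_of_sub_eq h3
    · rcases (by omega : a + 1 ≤ b ∨ b + 1 ≤ a) with h5 | h5 <;> nlinarith
    · rcases (by omega : a + 2 ≤ b ∨ b + 1 ≤ a) with h5 | h5 <;> nlinarith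
    · rcases (by omega : a + 1 ≤ b ∨ b + 2 ≤ a) with h5 | h5 <;> nlinarith
  have key : ∀ k, quo l x (u + 1) k = quo l x u k ∨
      quo l x (u + 1) k - quo l x u k = (-1) ^ k := fun k => by
    induction k with
    | zero => simp [quo]
    | succ k ih =>
      have := st k ih
      rw [pow_succ]
      omega
  exact ⟨st k (key k), key k⟩

theorem exists_state_even (hn : Odd n) (hl : 0 ≤ l) (x : ZMod n → ℤ) : ∃ U, State l x 0 U := by
  have : NeZero n := ⟨hn.pos.ne'⟩
  have hG : ∀ u, quo l x (u + 1) n = quo l x u n ∨ quo l x (u + 1) n - quo l x u n = -1 :=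
    fun u => hn.neg_one_pow (α := ℤ) ▸ (quo_diff hl x u n).2
  have hA : Antitone fun u => quo l x u n := antitone_int_of_succ_le fun u => by
    have := hG u
    omega
  obtain ⟨u, h1, h2⟩ := Int.exists_greatest_of_bdd (P := fun u => u < quo l x u n)
    ⟨|quo l x 0 n|, fun z hz => by
      have := @hA 0 z
      have := le_abs_self (quo l x 0 n)
      have := abs_nonneg (quo l x 0 n)
      dsimp only at *
      omega⟩
    ⟨-|quo l x 0 n| - 1, by
      have := @hA (-|quo l x 0 n| - 1) 0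
      have := neg_abs_le (quo l x 0 n)
      have := abs_nonneg (quo l x 0 n)
      dsimp only at *
      omega⟩
  have h3 := h2 (u + 1)
  have h4 := hG u
  by_cases h5 : quo l x (u + 1) n = u + 1
  · refine ⟨fun i => 2 * quo l x (u + 1) i.val, fun i k => by rw [← mul_sub]; exact even_two_mul _,
      cyc (quo l x (u + 1)) h5 (fun i a b => 0 ≤ 2 * x i + 0 - ((l + 1) * (2 * a) + l * (2 * b)) ∧
        2 * x i + 0 - ((l + 1) * (2 * a) + l * (2 * b)) ≤ 2 * l) fun k _ => ?_⟩
    have := quo_spec hl x (u + 1) k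
    constructor <;> linarith
  · have h6 : ∀ k ≤ n, quo l x (u + 1) k ≠ quo l x u k := fun k hk e => by
      obtain ⟨r, hr⟩ := Nat.exists_eq_add_of_le hk
      have : ∀ r, quo l x (u + 1) (k + r) = quo l x u (k + r) := fun r => by
        induction r with
        | zero => exact e
        | succ r ih => rw [← add_assoc, quo, quo, ih]
      have := this r
      rw [← hr] at this
      omega
    have h7 : ∀ k ≤ n, Odd (quo l x (u + 1) k + quo l x u k) := fun k hk => by
      have := h6 k hk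
      have := (quo_diff hl x u k).2
      rw [Int.odd_iff]
      rcases neg_one_pow_eq_or ℤ k with h4 | h4 <;> omega
    refine ⟨fun i => quo l x (u + 1) i.val + quo l x u i.val,
      fun i k => (h7 _ i.val_lt.le).sub_odd (h7 _ k.val_lt.le),
      cyc (fun k => quo l x (u + 1) k + quo l x u k) (by simp only [quo]; omega)
        (fun i a b => 0 ≤ 2 * x i + 0 - ((l + 1) * a + l * b) ∧
          2 * x i + 0 - ((l + 1) * a + l * b) ≤ 2 * l) fun k _ => ?_⟩
    have := quo_spec hl x (u + 1) k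
    have := quo_spec hl x u k
    constructor <;> linarith

theorem exists_state (hn : Odd n) (hl : 0 ≤ l) (y : ZMod n → ℤ) (t : ℤ) :
    ∃ U, State l y t U := by
  obtain ⟨U, h⟩ := exists_state_even hn hl fun i => y i + (l + 1) * t
  refine ⟨fun i => U i - t, fun i k => by simpa using h.1 i k, fun i => ?_⟩
  convert h.2 i using 2 <;> simp only [res] <;> ring

end Pool.Agent.MP_1e9e92_co

end

-- part MP_1e9e92_co.Count
section

/-!
Covering and counting for the lattice, and the partition of Euclidean space.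
-/

namespace Pool.Agent.MP_1e9e92_co

open Finset

variable {n : ℕ} {l : ℤ}

/-- The lattice. -/
def Lat (l : ℤ) (z : ZMod n → ℤ) : Prop :=
  ∃ (t : ℤ) (U : ZMod n → ℤ), (∀ i k, Even (U i - U k)) ∧
    ∀ i, 2 * z i = (l + 1) * U i + l * U (i - 1) - t

theorem State.par {y U : ZMod n → ℤ} {t : ℤ} (h : State l y t U) (i : ZMod n) :
    Even (res l y t U i - (t - U 0)) := by
  obtain ⟨a, ha⟩ := h.1 i 0
  obtain ⟨b, hb⟩ := h.1 i (i - 1)
  refine ⟨y i - l * U i + l * b - a, ?_⟩
  rw [res, show U (i - 1) = U i - (b + b) by omega, show U 0 = U i - (a + a) by omega]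
  ring

theorem orbit (hn : Odd n) (hl : (n : ℤ) < 2 * l + 1) (y : ZMod n → ℤ) :
    ∃ U : ℤ → ZMod n → ℤ, (∀ t, State l y t (U t)) ∧
      (∃ t ∈ Ico 0 (2 * l + 1), U (t + 1) = U t) ∧
      (∃ t ∈ Ico 0 (2 * l + 1), ¬ Even (t - U t 0)) ∧
      ∀ j, ∃ t ∈ Ico 0 (2 * l + 1), res l y t (U t) j = 2 * l := by
  have : NeZero n := ⟨hn.pos.ne'⟩
  have hl0 : 0 ≤ l := by omega
  choose U hU using exists_state hn hl0 y
  obtain ⟨q, hq⟩ := Int.eq_ofNat_of_zero_le (show 0 ≤ 2 * l + 1 by omega)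
  have hper : U q = fun i => U 0 i + 1 := by
    have := ((hU 0).shift 1).1
    rw [zero_add, mul_one, hq] at this
    exact this.unique hn hl0 (hU q)
  have hst := fun t => (hU t).step hn hl0 (hU (t + 1))
  have h0 : ∃ t ∈ Ico 0 (2 * l + 1), U (t + 1) = U t := by
    by_contra hne
    have key : ∀ k : ℕ, k ≤ q → ∑ j, (U 0 j + U 0 (j - 1)) + 2 * k ≤
        ∑ j, (U k j + U k (j - 1)) := fun k hk => by
      induction k with
      | zero => simp
      | succ k ih =>
        obtain ⟨j, hj⟩ := (hst k).2.resolve_left fun e => hne ⟨k, mem_Ico.2 (by omega), e⟩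
        have h1 := single_le_sum (s := univ) (f := fun j => U (k + 1) j + U (k + 1) (j - 1) -
          (U k j + U k (j - 1))) (fun i _ => by have := (hst k).1 i; omega) (mem_univ j)
        have := ih (by omega)
        rw [sum_sub_distrib] at h1
        push_cast
        omega
    have := key q le_rfl
    simp only [hper, sum_add_distrib, sum_const, card_univ, ZMod.card, nsmul_eq_mul] at this
    omega
  refine ⟨U, hU, h0, ?_, fun j => ?_⟩
  · obtain ⟨t, h1, h2⟩ := h0
    rw [mem_Ico] at h1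
    by_cases h3 : Even (t - U t 0)
    · rcases (show t + 1 ≤ q by omega).lt_or_eq with h4 | h4
      · refine ⟨t + 1, mem_Ico.2 (by omega), ?_⟩
        rw [h2, Int.even_iff] at *
        omega
      · refine ⟨0, mem_Ico.2 (by omega), ?_⟩
        have := congrFun (h4 ▸ h2 : U q = U t) 0
        rw [hper] at this
        dsimp only at this
        rw [Int.even_iff] at h3 ⊢
        omega
    · exact ⟨t, mem_Ico.2 h1, h3⟩
  · by_contra hne
    have key : ∀ k : ℕ, k ≤ q → U k j + U k (j - 1) = U 0 j + U 0 (j - 1) := fun k hk => by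
      induction k with
      | zero => simp
      | succ k ih =>
        have := ((hst k).1 j).resolve_right fun e => hne ⟨k, mem_Ico.2 (by omega), e.2⟩
        rw [Nat.cast_succ, this, ih (by omega)]
    have := key q le_rfl
    rw [hper] at this
    dsimp only at this
    omega

theorem cover (hn : Odd n) (hl : (n : ℤ) < 2 * l + 1) (y : ZMod n → ℤ) :
    ∃ z, Lat l z ∧ ∀ i, 0 ≤ y i - z i ∧ y i - z i < l := by
  obtain ⟨U, h1, ⟨t, -, h2⟩, -⟩ := orbit hn hl y
  have h3 := h1 (t + 1)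
  rw [h2] at h3
  have h4 : ∀ i, res l y (t + 1) (U t) i = res l y t (U t) i + 1 := fun i => by
    simp only [res]
    ring
  refine ⟨fun i => y i - res l y t (U t) i / 2, ⟨t - (t - U t 0) % 2, U t, (h1 t).1, fun i => ?_⟩,
    fun i => ?_⟩
  · have := Int.even_iff.1 ((h1 t).par i)
    have e : (l + 1) * U t i + l * U t (i - 1) = 2 * y i + t - res l y t (U t) i := by
      simp only [res]
      ring
    dsimp only
    omega
  · have := (h1 t).2 i
    have := h3.2 i
    have := h4 i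
    dsimp only
    omega

theorem count (hn : Odd n) (hl : (n : ℤ) < 2 * l + 1) (y : ZMod n → ℤ) (j : ZMod n) :
    ∃ s s' : Finset (ZMod n → ℤ), (s.card : ℤ) ≤ 2 * l ∧ (s'.card : ℤ) + 1 ≤ 2 * l ∧
      ∀ z, Lat l z → (∀ i, 0 ≤ y i - z i ∧ y i - z i ≤ l) →
        z ∈ s ∧ (y j - z j < l → z ∈ s') := by
  classical
  obtain ⟨U, h1, -, ⟨a, a1, a2⟩, h2⟩ := orbit hn hl y
  obtain ⟨b, b1, b2⟩ := h2 j
  have hab : b ≠ a := by
    rintro rfl
    have := (h1 b).par j
    rw [Int.even_iff] at *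
    omega
  have c1 : (((Ico 0 (2 * l + 1)).erase a).card : ℤ) = 2 * l := by
    have := card_erase_add_one a1
    rw [Int.card_Ico] at this
    omega
  have c2 := card_erase_add_one (mem_erase.2 ⟨hab, b1⟩)
  refine ⟨((Ico 0 (2 * l + 1)).erase a).image fun t i => y i - res l y t (U t) i / 2,
    (((Ico 0 (2 * l + 1)).erase a).erase b).image fun t i => y i - res l y t (U t) i / 2,
    ?_, ?_, ?_⟩
  · exact (Int.ofNat_le.2 card_image_le).trans c1.le
  · have := card_image_le (s := ((Ico 0 (2 * l + 1)).erase a).erase b)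
      (f := fun t i => y i - res l y t (U t) i / 2)
    omega
  rintro z ⟨t, V, h3, h4⟩ h5
  have e : ∀ i, res l y t V i = 2 * (y i - z i) := fun i => by
    have := h4 i
    simp only [res]
    omega
  have hS : State l y t V := ⟨h3, fun i => by have := h5 i; rw [e]; omega⟩
  obtain ⟨h6, h7⟩ := hS.shift (-(t / (2 * l + 1)))
  rw [show t + (2 * l + 1) * -(t / (2 * l + 1)) = t % (2 * l + 1) by
    rw [Int.emod_def]; ring] at h6 h7
  have h8 : t % (2 * l + 1) ∈ Ico 0 (2 * l + 1) :=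
    mem_Ico.2 ⟨Int.emod_nonneg _ (by omega), Int.emod_lt_of_pos _ (by omega)⟩
  generalize t % (2 * l + 1) = r at *
  rw [← h6.unique hn (by omega) (h1 r)] at h7
  have h9 : r ≠ a := by
    rintro rfl
    have := (h1 r).par j
    rw [h7, e, Int.even_iff] at *
    omega
  have h10 : (fun i => y i - res l y r (U r) i / 2) = z := funext fun i => by
    rw [h7, e]
    omega
  refine ⟨mem_image.2 ⟨r, mem_erase.2 ⟨h9, h8⟩, h10⟩, fun h => mem_image.2
    ⟨r, mem_erase.2 ⟨?_, mem_erase.2 ⟨h9, h8⟩⟩, h10⟩⟩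
  rintro rfl
  rw [h7, e] at b2
  omega

theorem grid (d : ℕ) : ∃ (C : Type) (f : (Fin d → ℤ) → C),
    (∀ x y, f x = f y → ∀ i, x i - y i ≤ (d / 2 : ℕ)) ∧
    ∀ y : Fin d → ℤ, ∃ s : Finset C, s.card ≤ d + 1 ∧
      ∀ x, (∀ i, x i ≤ y i ∧ y i ≤ x i + 1) → f x ∈ s := by
  have hn : Odd (2 * (d / 2) + 1) := odd_two_mul_add_one _
  have hl : ((2 * (d / 2) + 1 : ℕ) : ℤ) < 2 * ((d / 2 : ℕ) + 1) + 1 := by omega
  let E : (Fin d → ℤ) → ZMod (2 * (d / 2) + 1) → ℤ := fun x k =>
    if h : k.val < d then x ⟨k.val, h⟩ else 0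
  choose g g1 g2 using cover hn hl
  refine ⟨_, fun x => g (E x), fun x y h i => ?_, fun y => ?_⟩
  · have hi : ((i : ℕ) : ZMod (2 * (d / 2) + 1)).val = i := ZMod.val_natCast_of_lt (by omega)
    have h1 := g2 (E x) (i : ℕ)
    have h2 := g2 (E y) (i : ℕ)
    dsimp only at h
    rw [h] at h1
    simp only [E, hi, i.2, dif_pos, Fin.eta] at h1 h2
    omega
  obtain ⟨s, s', h1, h2, h3⟩ := count hn hl (E y) ((2 * (d / 2) : ℕ) : ZMod (2 * (d / 2) + 1))
  have key : ∀ x, (∀ i, x i ≤ y i ∧ y i ≤ x i + 1) → ∀ k, E x k ≤ E y k ∧ E y k ≤ E x k + 1 :=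
    fun x hx k => by
      simp only [E]
      split_ifs
      exacts [hx _, by simp]
  have h4 := fun x hx => h3 _ (g1 (E x)) fun k => by
    have := key x hx k
    have := g2 (E x) k
    omega
  rcases Nat.even_or_odd' d with ⟨m, rfl | rfl⟩
  · refine ⟨s', by omega, fun x hx => (h4 x hx).2 ?_⟩
    have hi : ((2 * (2 * m / 2) : ℕ) : ZMod (2 * (2 * m / 2) + 1)).val = 2 * (2 * m / 2) :=
      ZMod.val_natCast_of_lt (by omega)
    have := g2 (E x) ((2 * (2 * m / 2) : ℕ) : ZMod (2 * (2 * m / 2) + 1))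
    simp only [E, hi, show ¬ 2 * (2 * m / 2) < 2 * m by omega, dif_neg, not_false_eq_true]
      at this ⊢
    exact this.2
  · exact ⟨s, by omega, fun x hx => (h4 x hx).1⟩

theorem secluded (d : ℕ) (D : ℝ) (hD : 0 < D) :
    ∃ P : Set (Set (Fin d → ℝ)), Setoid.IsPartition P ∧
      (∀ X ∈ P, ∀ x ∈ X, ∀ y ∈ X, dist x y ≤ D) ∧
      ∀ p : Fin d → ℝ, {X ∈ P | (X ∩ Metric.closedBall p
        (D / (2 * ((d / 2 : ℕ) : ℝ) + 2))).Nonempty}.encard ≤ (d : ℕ∞) + 1 := by
  obtain ⟨C, f, h1, h2⟩ := grid d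
  obtain ⟨c, hc⟩ : ∃ c : ℝ, c = D / ((d / 2 : ℕ) + 1) := ⟨_, rfl⟩
  have hc0 : 0 < c := by rw [hc]; positivity
  have hc1 : D = ((d / 2 : ℕ) + 1) * c := by rw [hc]; field_simp
  let F : (Fin d → ℝ) → C := fun x => f fun i => ⌊x i / c⌋
  refine ⟨(Setoid.ker F).classes, Setoid.isPartition_classes _, ?_, fun p => ?_⟩
  · rintro _ ⟨w, rfl⟩ x hx y hy
    have key : ∀ x y, F x = F y → ∀ i, x i - y i ≤ D := fun x y h i => by
      have a1 : ((⌊x i / c⌋ : ℤ) : ℝ) - (⌊y i / c⌋ : ℤ) ≤ (d / 2 : ℕ) := by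
        rw [← Int.cast_sub, ← Int.cast_natCast]
        exact Int.cast_le.2 (h1 _ _ h i)
      have a2 := Int.lt_floor_add_one (x i / c)
      have a3 := Int.floor_le (y i / c)
      rw [hc1, ← div_le_iff₀ hc0, sub_div]
      linarith
    have e : F x = F y := hx.trans hy.symm
    refine (dist_pi_le_iff hD.le).2 fun i => ?_
    rw [Real.dist_eq, abs_sub_le_iff]
    exact ⟨key x y e i, key y x e.symm i⟩
  · obtain ⟨s, h3, h4⟩ := h2 fun i => ⌊p i / c + 1 / 2⌋
    have : {X ∈ (Setoid.ker F).classes | (X ∩ Metric.closedBall p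
        (D / (2 * ((d / 2 : ℕ) : ℝ) + 2))).Nonempty} ⊆ (fun z => {x | F x = z}) '' s := by
      rintro _ ⟨⟨w, rfl⟩, x, hx, hp⟩
      refine ⟨F x, h4 _ fun i => ?_, Set.ext fun v => ?_⟩
      · have a1 := (dist_le_pi_dist x p i).trans (Metric.mem_closedBall.1 hp)
        rw [show D / (2 * ((d / 2 : ℕ) : ℝ) + 2) = 1 / 2 * c by rw [hc]; field_simp,
          Real.dist_eq, abs_sub_le_iff, ← div_le_iff₀ hc0, ← div_le_iff₀ hc0, sub_div,
          sub_div] at a1
        refine ⟨Int.floor_le_floor (by linarith [a1.1]), ?_⟩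
        rw [← Int.floor_add_one]
        exact Int.floor_le_floor (by linarith [a1.2])
      · change F v = F x ↔ F v = F w
        rw [show F x = F w from hx]
    refine (Set.encard_le_encard this).trans ((Set.encard_image_le _ _).trans ?_)
    rw [Set.encard_coe_eq_coe_finsetCard]
    exact_mod_cast h3

end Pool.Agent.MP_1e9e92_co

end
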